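import Mathlib

set_option autoImplicit false

namespace Pool.Agent.Work.MP_bcfe2b_lc

/-- The Čech-Stone remainder of the natural numbers: the space of nonprincipal ultrafilters
on `ℕ`, with the subspace topology of the space of all ultrafilters on `ℕ` (whose basic open
sets are the sets of all ultrafilters containing a given subset of `ℕ`). -/
abbrev NStar : Type := {p : Ultrafilter ℕ // ∀ n : ℕ, p ≠ pure n}

/-- An almost disjoint family on a topological space `X`: a family of noncompact regular open
sets such that the intersection of any two distinct members is compact. -/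
def IsAlmostDisjointFamily (X : Type) [TopologicalSpace X] (𝒜 : Set (Set X)) : Prop :=
  (∀ U ∈ 𝒜, interior (closure U) = U ∧ ¬ IsCompact U) ∧
    ∀ U ∈ 𝒜, ∀ V ∈ 𝒜, U ≠ V → IsCompact (U ∩ V)

end Pool.Agent.Work.MP_bcfe2b_lc
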