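import Mathlib
import Pool.Agent.Work.MP_bcfe2b_lc.Defs

set_option autoImplicit false

namespace Pool.Agent.Work.MP_bcfe2b_lc

open Set Filter

/-- the basic clopen set given by `y` -/
def N (y : Set ℕ) : Set NStar := {p | y ∈ p.1}

lemma mem_N (y : Set ℕ) (p : NStar) : p ∈ N y ↔ y ∈ p.1 := Iff.rfl

lemma isOpen_N (y : Set ℕ) : IsOpen (N y) :=
  (ultrafilter_isOpen_basic y).preimage continuous_subtype_val

lemma isClosed_N (y : Set ℕ) : IsClosed (N y) :=
  (ultrafilter_isClosed_basic y).preimage continuous_subtype_val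

lemma ne_pure_iff (p : Ultrafilter ℕ) (n : ℕ) : p ≠ pure n ↔ ({n} : Set ℕ)ᶜ ∈ p := by
  constructor
  · intro h
    by_contra hcon
    rw [Ultrafilter.compl_mem_iff_notMem, not_not] at hcon
    apply h
    apply Ultrafilter.eq_of_le
    intro s hs
    have hns : n ∈ s := hs
    exact Filter.mem_of_superset hcon (Set.singleton_subset_iff.mpr hns)
  · rintro h rfl
    simp at h

instance : CompactSpace NStar := by
  have : {p : Ultrafilter ℕ | ∀ n : ℕ, p ≠ pure n} = ⋂ n : ℕ, {p | ({n} : Set ℕ)ᶜ ∈ p} := by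
    ext p
    simp only [mem_ofPred_eq, mem_iInter, ne_pure_iff]
  have hcl : IsClosed {p : Ultrafilter ℕ | ∀ n : ℕ, p ≠ pure n} := by
    rw [this]
    exact isClosed_iInter fun n => ultrafilter_isClosed_basic _
  exact isCompact_iff_compactSpace.mp hcl.isCompact

lemma isCompact_N (y : Set ℕ) : IsCompact (N y) := (isClosed_N y).isCompact

lemma compl_finite_mem (p : NStar) {s : Set ℕ} (hs : s.Finite) : sᶜ ∈ p.1 := by
  induction s, hs using Set.Finite.induction_on with
  | empty => rw [Set.compl_empty]; exact Filter.univ_mem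
  | @insert a s _ _ ih =>
    rw [← Set.singleton_union, Set.compl_union]
    exact Filter.inter_mem ((ne_pure_iff _ _).mp (p.2 a)) ih

lemma N_nonempty {y : Set ℕ} (hy : y.Infinite) : (N y).Nonempty := by
  have hne : NeBot (cofinite ⊓ 𝓟 y) := by
    rw [inf_principal_neBot_iff]
    intro U hU
    by_contra hcon
    rw [Set.not_nonempty_iff_eq_empty] at hcon
    apply hy
    rw [Filter.mem_cofinite] at hU
    refine hU.subset ?_
    intro x hx hxU
    have : x ∈ U ∩ y := ⟨hxU, hx⟩
    rw [hcon] at this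
    exact this
  obtain ⟨p, hp⟩ := Ultrafilter.exists_le (cofinite ⊓ 𝓟 y)
  refine ⟨⟨p, ?_⟩, ?_⟩
  · intro n
    rw [ne_pure_iff]
    apply hp
    apply mem_inf_of_left
    rw [Filter.mem_cofinite, compl_compl]
    exact Set.finite_singleton n
  · change y ∈ p
    apply hp
    exact mem_inf_of_right (mem_principal_self y)

lemma N_subset_iff {y z : Set ℕ} : N y ⊆ N z ↔ (y \ z).Finite := by
  constructor
  · intro h
    by_contra hinf
    obtain ⟨p, hp⟩ := N_nonempty (y := y \ z) hinf
    have h1 : y ∈ p.1 := Filter.mem_of_superset hp Set.sdiff_subset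
    have h2 : z ∈ p.1 := h h1
    have h3 : (y \ z) ∩ z ∈ p.1 := Filter.inter_mem hp h2
    rw [Set.sdiff_inter_self] at h3
    exact Ultrafilter.empty_notMem h3
  · intro h p hp
    have h1 := compl_finite_mem p h
    have h2 : y ∩ (y \ z)ᶜ ∈ p.1 := Filter.inter_mem hp h1
    refine Filter.mem_of_superset h2 ?_
    rintro x ⟨hx1, hx2⟩
    by_contra hxz
    exact hx2 ⟨hx1, hxz⟩

lemma N_inter (y z : Set ℕ) : N (y ∩ z) = N y ∩ N z := by
  ext p
  simp only [mem_N, Set.mem_inter_iff]
  exact Filter.inter_mem_iff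

lemma N_union (y z : Set ℕ) : N (y ∪ z) = N y ∪ N z := by
  ext p
  simp only [mem_N, Set.mem_union]
  exact Ultrafilter.union_mem_iff

lemma N_empty : N ∅ = ∅ := by
  ext p
  simp only [mem_N, Set.mem_empty_iff_false, iff_false]
  exact Ultrafilter.empty_notMem

lemma exists_N_sub {U : Set NStar} (hU : IsOpen U) {p : NStar} (hp : p ∈ U) :
    ∃ y, p ∈ N y ∧ N y ⊆ U := by
  obtain ⟨V, hV, rfl⟩ := isOpen_induced_iff.mp hU
  obtain ⟨_, ⟨y, rfl⟩, h1, h2⟩ :=
    ultrafilterBasis_is_basis.exists_subset_of_mem_open (show p.1 ∈ V from hp) hV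
  exact ⟨y, h1, fun q hq => h2 hq⟩

/-- Every compact open set is a basic clopen set. -/
lemma eq_N_of_isCompact {U : Set NStar} (hU : IsOpen U) (hc : IsCompact U) : ∃ y, U = N y := by
  have hcov : U ⊆ ⋃ y ∈ {y : Set ℕ | N y ⊆ U}, N y := by
    intro p hp
    obtain ⟨y, h1, h2⟩ := exists_N_sub hU hp
    simp only [mem_iUnion]
    exact ⟨y, h2, h1⟩
  obtain ⟨t, ht1, ht2, ht3⟩ := hc.elim_finite_subcover_image (fun y _ => isOpen_N y) hcov
  have : ∀ s : Set (Set ℕ), s.Finite → s ⊆ {y : Set ℕ | N y ⊆ U} →
      ∃ z, ⋃ y ∈ s, N y = N z := by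
    intro s hs
    induction s, hs using Set.Finite.induction_on with
    | empty => intro _; exact ⟨∅, by simp [N_empty]⟩
    | @insert a s _ _ ih =>
      intro hsub
      obtain ⟨z, hz⟩ := ih (fun x hx => hsub (Set.mem_insert_of_mem _ hx))
      refine ⟨a ∪ z, ?_⟩
      rw [Set.biUnion_insert, hz, N_union]
  obtain ⟨z, hz⟩ := this t ht2 ht1
  refine ⟨z, ?_⟩
  rw [← hz]
  apply Set.Subset.antisymm ht3
  intro p hp
  simp only [mem_iUnion] at hp
  obtain ⟨y, hy, hpy⟩ := hp
  exact ht1 hy hpy

/-- regularization commutes with binary intersections of open sets -/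
lemma interior_closure_inter' {X : Type*} [TopologicalSpace X] {U V : Set X} (hU : IsOpen U)
    (_hV : IsOpen V) :
    interior (closure (U ∩ V)) = interior (closure U) ∩ interior (closure V) := by
  apply Set.Subset.antisymm
  · apply Set.subset_inter
    · exact interior_mono (closure_mono Set.inter_subset_left)
    · exact interior_mono (closure_mono Set.inter_subset_right)
  · have hW : IsOpen (interior (closure U) ∩ interior (closure V)) :=
      isOpen_interior.inter isOpen_interior
    apply interior_maximal _ hW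
    rintro x ⟨hx1, hx2⟩
    rw [mem_closure_iff]
    intro O hO hxO
    have hxU : x ∈ closure U := interior_subset hx1
    obtain ⟨a, ha1, ha2⟩ := mem_closure_iff.mp hxU (O ∩ (interior (closure U) ∩ interior (closure V)))
      (hO.inter hW) ⟨hxO, hx1, hx2⟩
    have haV : a ∈ closure V := interior_subset ha1.2.2
    obtain ⟨b, hb1, hb2⟩ := mem_closure_iff.mp haV (O ∩ U) (hO.inter hU) ⟨ha1.1, ha2⟩
    exact ⟨b, hb1.1, hb1.2, hb2⟩

lemma interior_closure_N (y : Set ℕ) : interior (closure (N y)) = N y := by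
  rw [(isClosed_N y).closure_eq, (isOpen_N y).interior_eq]

/-- the regularization is regular open -/
lemma reg_reg {X : Type*} [TopologicalSpace X] (U : Set X) :
    interior (closure (interior (closure U))) = interior (closure U) := by
  apply Set.Subset.antisymm
  · apply interior_mono
    have : closure (interior (closure U)) ⊆ closure (closure U) := closure_mono interior_subset
    rwa [closure_closure] at this
  · apply interior_maximal subset_closure isOpen_interior

end Pool.Agent.Work.MP_bcfe2b_lc
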