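import Mathlib

set_option autoImplicit false

namespace Pool.Agent.Work.MP_bcfe2b_lc

open Set

variable {I : Type} [LinearOrder I]

/-- `Good F l G`: `G n` is an increasing sequence of finite sets with union `Iio l`, and
`G n` is coherent with the earlier sets `F b n`. -/
structure Good (F : I → ℕ → Set I) (l : I) (G : ℕ → Set I) : Prop where
  fin : ∀ n, (G n).Finite
  sub : ∀ n, G n ⊆ Iio l
  mono : Monotone G
  cover : ∀ b, b < l → ∃ n, b ∈ G n
  coh : ∀ n, ∀ b ∈ G n, G n ∩ Iio b = F b n

lemma Good.congr {F F' : I → ℕ → Set I} {l : I} {G : ℕ → Set I} (h : Good F l G)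
    (hF : ∀ b < l, F b = F' b) : Good F' l G :=
  ⟨h.fin, h.sub, h.mono, h.cover, fun n b hb => by
    rw [h.coh n b hb, hF b (h.sub n hb)]⟩

/-- running maximum -/
def lam (a : ℕ → I) : ℕ → I
  | 0 => a 0
  | k + 1 => max (lam a k) (a (k + 1))

lemma le_lam (a : ℕ → I) (k : ℕ) : a k ≤ lam a k := by
  cases k with
  | zero => exact le_rfl
  | succ k => exact le_max_right _ _

lemma lam_le_succ (a : ℕ → I) (k : ℕ) : lam a k ≤ lam a (k + 1) := le_max_left _ _

lemma lam_lt {a : ℕ → I} {l : I} (h : ∀ k, a k < l) (k : ℕ) : lam a k < l := by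
  induction k with
  | zero => exact h 0
  | succ k ih => exact max_lt ih (h _)

open Classical in
/-- the index sequence -/
noncomputable def idx (F : I → ℕ → Set I) (a : ℕ → I) : ℕ → ℕ
  | 0 => 0
  | n + 1 => if lam a (idx F a n) ∈ insert (lam a (idx F a n + 1)) (F (lam a (idx F a n + 1)) (n + 1))
      then idx F a n + 1 else idx F a n

lemma exists_good (F : I → ℕ → Set I) (l : I) (hF : ∀ b < l, Good F b (F b))
    (hc : (Iio l).Countable) : ∃ G, Good F l G := by
  classical
  rcases (Iio l).eq_empty_or_nonempty with he | hne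
  · refine ⟨fun _ => ∅, ⟨fun _ => finite_empty, fun _ => empty_subset _, fun _ _ _ => le_rfl, ?_, ?_⟩⟩
    · intro b hb
      have : b ∈ Iio l := hb
      rw [he] at this
      exact absurd this (notMem_empty b)
    · intro n b hb
      exact absurd hb (notMem_empty b)
  obtain ⟨a, ha⟩ := hc.exists_eq_range hne
  have hal : ∀ k, a k < l := fun k => by
    have : a k ∈ Iio l := by rw [ha]; exact mem_range_self k
    exact this
  have hlam := lam_lt hal
  -- the sets S n b
  set S : ℕ → I → Set I := fun n b => insert b (F b n) with hS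
  have Smono : ∀ b < l, ∀ {n m : ℕ}, n ≤ m → S n b ⊆ S m b := by
    intro b hb n m hnm
    exact insert_subset_insert ((hF b hb).mono hnm)
  have Ssub : ∀ b < l, ∀ n, S n b ⊆ Iio l := by
    intro b hb n x hx
    rcases hx with rfl | hx
    · exact hb
    · exact lt_trans ((hF b hb).sub n hx) hb
  have Scoh : ∀ b < l, ∀ n, ∀ c ∈ S n b, S n b ∩ Iio c = F c n := by
    intro b hb n c hcS
    rcases hcS with rfl | hcS
    · ext x
      constructor
      · rintro ⟨rfl | hx, hx2⟩
        · exact absurd hx2 (lt_irrefl _)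
        · exact hx
      · intro hx
        exact ⟨Or.inr hx, (hF _ hb).sub n hx⟩
    · rw [← (hF b hb).coh n c hcS]
      have hcb : c < b := (hF b hb).sub n hcS
      ext x
      constructor
      · rintro ⟨rfl | hx, hx2⟩
        · exact absurd (lt_trans hx2 hcb) (lt_irrefl _)
        · exact ⟨hx, hx2⟩
      · rintro ⟨hx, hx2⟩
        exact ⟨Or.inr hx, hx2⟩
  have Strans : ∀ b < l, ∀ n, ∀ c ∈ S n b, S n c ⊆ S n b := by
    intro b hb n c hcS x hx
    rcases hx with rfl | hx
    · exact hcS
    · rw [← Scoh b hb n c hcS] at hx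
      exact hx.1
  set k : ℕ → ℕ := idx F a with hk
  have hk1 : ∀ n, lam a (k n) ∈ S (n + 1) (lam a (k n + 1)) → k (n + 1) = k n + 1 := by
    intro n h
    simp only [hk, idx]
    rw [if_pos]
    exact h
  have hk2 : ∀ n, lam a (k n) ∉ S (n + 1) (lam a (k n + 1)) → k (n + 1) = k n := by
    intro n h
    simp only [hk, idx]
    rw [if_neg]
    exact h
  have hmono1 : ∀ n, S n (lam a (k n)) ⊆ S (n + 1) (lam a (k (n + 1))) := by
    intro n
    by_cases h : lam a (k n) ∈ S (n + 1) (lam a (k n + 1))
    · rw [hk1 n h]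
      exact (Smono _ (hlam _) (Nat.le_succ n)).trans (Strans _ (hlam _) _ _ h)
    · rw [hk2 n h]
      exact Smono _ (hlam _) (Nat.le_succ n)
  have hkinf : ∀ j, ∃ n, k n = j := by
    intro j
    induction j with
    | zero => exact ⟨0, rfl⟩
    | succ j ih =>
      obtain ⟨n, hn⟩ := ih
      by_contra hcon
      push Not at hcon
      have hstay : ∀ m, n ≤ m → k m = j := by
        intro m hm
        induction m, hm using Nat.le_induction with
        | base => exact hn
        | succ m hm ihm =>
          by_cases h : lam a (k m) ∈ S (m + 1) (lam a (k m + 1))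
          · have := hk1 m h
            rw [ihm] at this
            exact absurd this (hcon _)
          · rw [hk2 m h, ihm]
      have hin : ∃ m0, ∀ m, m0 ≤ m → lam a j ∈ S m (lam a (j + 1)) := by
        rcases (lam_le_succ a j).lt_or_eq with hlt | heq
        · obtain ⟨m0, hm0⟩ := (hF _ (hlam (j + 1))).cover _ hlt
          exact ⟨m0, fun m hm => Or.inr ((hF _ (hlam (j + 1))).mono hm hm0)⟩
        · exact ⟨0, fun m _ => Or.inl heq⟩
      obtain ⟨m0, hm0⟩ := hin
      have h1 := hstay (max m0 n) (le_max_right _ _)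
      have h2 : lam a (k (max m0 n)) ∈ S (max m0 n + 1) (lam a (k (max m0 n) + 1)) := by
        rw [h1]
        exact hm0 _ (le_trans (le_max_left _ _) (Nat.le_succ _))
      have h3 := hk1 _ h2
      rw [h1] at h3
      exact hcon _ h3
  have hGmono : Monotone (fun n => S n (lam a (k n))) := monotone_nat_of_le_succ hmono1
  refine ⟨fun n => S n (lam a (k n)), ⟨?_, ?_, hGmono, ?_, ?_⟩⟩
  · intro n
    exact ((hF _ (hlam _)).fin n).insert _
  · intro n
    exact Ssub _ (hlam _) n
  · intro b hb
    have : b ∈ range a := by rw [← ha]; exact hb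
    obtain ⟨j, rfl⟩ := this
    obtain ⟨n, hn⟩ := hkinf j
    have hin : lam a j ∈ S n (lam a (k n)) := by rw [hn]; exact Or.inl rfl
    rcases (le_lam a j).lt_or_eq with hlt | heq
    · obtain ⟨m, hm⟩ := (hF _ (hlam j)).cover _ hlt
      refine ⟨max m n, ?_⟩
      have h1 : lam a j ∈ S (max m n) (lam a (k (max m n))) := hGmono (le_max_right m n) hin
      have h2 := Scoh _ (hlam _) _ _ h1
      have h3 : a j ∈ F (lam a j) (max m n) := (hF _ (hlam j)).mono (le_max_left m n) hm
      rw [← h2] at h3
      exact h3.1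
    · exact ⟨n, by rw [heq]; exact hin⟩
  · intro n b hb
    exact Scoh _ (hlam _) n b hb

open Classical in
/-- The coherent system of finite sets. -/
noncomputable def sys [WellFoundedLT I] : I → ℕ → Set I :=
  WellFounded.fix (wellFounded_lt (α := I)) (fun l prev =>
    if h : ∃ G, Good (fun b n => if hb : b < l then prev b hb n else ∅) l G then h.choose
    else fun _ => ∅)

lemma sys_good [WellFoundedLT I] (hc : ∀ l : I, (Iio l).Countable) (l : I) :
    Good (sys (I := I)) l (sys l) := by
  classical
  induction l using WellFoundedLT.induction with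
  | ind l ih =>
    have hex : ∃ G, Good (sys (I := I)) l G := exists_good _ l ih (hc l)
    have hex' : ∃ G, Good (fun b n => if hb : b < l then sys (I := I) b n else ∅) l G := by
      obtain ⟨G, hG⟩ := hex
      refine ⟨G, hG.congr ?_⟩
      intro b hb
      funext n
      rw [dif_pos hb]
    have hfix : sys (I := I) l = if h : ∃ G, Good (fun b n => if hb : b < l then sys (I := I) b n else ∅) l G
        then h.choose else fun _ => ∅ := by
      unfold sys
      rw [WellFounded.fix_eq]
    rw [dif_pos hex'] at hfix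
    have hch := hex'.choose_spec
    rw [← hfix] at hch
    refine hch.congr ?_
    intro b hb
    funext n
    rw [dif_pos hb]

end Pool.Agent.Work.MP_bcfe2b_lc
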