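import Mathlib
import Pool.Agent.Work.MP_bcfe2b_lc.Coherent

set_option autoImplicit false

namespace Pool.Agent.Work.MP_bcfe2b_lc

open Set

variable {I : Type} [LinearOrder I] [WellFoundedLT I]

open Classical in
/-- `sys l n` as a finset -/
noncomputable def fs (l : I) (n : ℕ) : Finset I :=
  if h : (sys l n).Finite then h.toFinset else ∅

lemma mem_fs (hc : ∀ l : I, (Iio l).Countable) (l : I) (n : ℕ) (x : I) :
    x ∈ fs l n ↔ x ∈ sys l n := by
  have h := (sys_good hc l).fin n
  unfold fs
  rw [dif_pos h, Set.Finite.mem_toFinset]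

/-- the word of values of `f` along `fs l n` -/
noncomputable def W (f : I → Bool) (n : ℕ) (l : I) : List Bool :=
  ((fs l n).sort (· ≤ ·)).map f

lemma W_length (f : I → Bool) (n : ℕ) (l : I) : (W f n l).length = (fs l n).card := by
  unfold W
  rw [List.length_map, Finset.length_sort]

/-- the sets attached to the nodes of the tree of functions `I → Bool` -/
def Y (f : I → Bool) (l : I) : Set (ℕ × List Bool) :=
  {x | ∃ a ∈ insert l (sys l x.1), x.2 = W f x.1 a}

lemma W_congr (hc : ∀ l : I, (Iio l).Countable) {f g : I → Bool} {l : I} (n : ℕ)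
    (h : ∀ x < l, f x = g x) : W f n l = W g n l := by
  unfold W
  apply List.map_congr_left
  intro x hx
  rw [Finset.mem_sort, mem_fs hc] at hx
  exact h x ((sys_good hc l).sub n hx)

/-- coherence of the sets `insert l (sys l n)` -/
lemma insert_coh (hc : ∀ l : I, (Iio l).Countable) (l : I) (n : ℕ) (a : I)
    (ha : a ∈ insert l (sys l n)) (x : I) : x ∈ sys a n ↔ x ∈ sys l n ∧ x < a := by
  rcases ha with rfl | ha
  · exact ⟨fun h => ⟨h, (sys_good hc _).sub n h⟩, fun h => h.1⟩
  · rw [← (sys_good hc l).coh n a ha]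
    rfl

lemma W_inj (hc : ∀ l : I, (Iio l).Countable) {f g : I → Bool} {l a b : I} {n : ℕ}
    (ha : a ∈ insert l (sys l n)) (hb : b ∈ insert l (sys l n))
    (h : W f n a = W g n b) : a = b := by
  have hcard : (fs a n).card = (fs b n).card := by
    rw [← W_length f, ← W_length g, h]
  by_contra hne
  wlog hab : a < b generalizing a b f g
  · exact this hb ha h.symm hcard.symm (Ne.symm hne) (lt_of_le_of_ne (not_lt.mp hab) (Ne.symm hne))
  have hss : fs a n ⊂ fs b n := by
    rw [Finset.ssubset_iff_of_subset]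
    · refine ⟨a, ?_, ?_⟩
      · rw [mem_fs hc, insert_coh hc l n b hb]
        refine ⟨?_, hab⟩
        rcases ha with rfl | ha
        · rcases hb with rfl | hb
          · exact absurd hab (lt_irrefl _)
          · exact absurd (lt_trans hab ((sys_good hc _).sub n hb)) (lt_irrefl _)
        · exact ha
      · rw [mem_fs hc]
        intro h'
        exact lt_irrefl _ ((sys_good hc _).sub n h')
    · intro x hx
      rw [mem_fs hc, insert_coh hc l n a ha] at hx
      rw [mem_fs hc, insert_coh hc l n b hb]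
      exact ⟨hx.1, lt_trans hx.2 hab⟩
  exact absurd hcard (ne_of_lt (Finset.card_lt_card hss))

lemma W_eq_values (hc : ∀ l : I, (Iio l).Countable) {f g : I → Bool} {a : I} {n : ℕ}
    (h : W f n a = W g n a) : ∀ x ∈ sys a n, f x = g x := by
  intro x hx
  unfold W at h
  rw [List.map_inj_left] at h
  apply h
  rw [Finset.mem_sort, mem_fs hc]
  exact hx

lemma Y_low_finite (hc : ∀ l : I, (Iio l).Countable) (f : I → Bool) (l : I) (n0 : ℕ) :
    {x | x ∈ Y f l ∧ x.1 < n0}.Finite := by
  have : {x | x ∈ Y f l ∧ x.1 < n0} ⊆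
      ⋃ n ∈ Finset.range n0, (fun a => (n, W f n a)) '' (insert l (sys l n)) := by
    rintro ⟨n, w⟩ ⟨⟨a, ha, hw⟩, hn⟩
    simp only [mem_iUnion]
    refine ⟨n, Finset.mem_range.mpr hn, a, ha, ?_⟩
    simp only at hw
    rw [hw]
  refine Set.Finite.subset ?_ this
  apply Set.Finite.biUnion (Finset.finite_toSet _)
  intro n _
  exact (((sys_good hc l).fin n).insert l).image _

lemma Y_sub (hc : ∀ l : I, (Iio l).Countable) (f : I → Bool) {l m : I} (hlm : l < m) :
    (Y f l \ Y f m).Finite := by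
  obtain ⟨n0, hn0⟩ := (sys_good hc m).cover l hlm
  refine (Y_low_finite hc f l n0).subset ?_
  rintro ⟨n, w⟩ ⟨⟨a, ha, hw⟩, hnot⟩
  refine ⟨⟨a, ha, hw⟩, ?_⟩
  by_contra hge
  push Not at hge
  apply hnot
  have hl : l ∈ sys m n := (sys_good hc m).mono hge hn0
  refine ⟨a, Or.inr ?_, hw⟩
  rcases ha with rfl | ha
  · exact hl
  · simp only at ha
    exact ((insert_coh hc m n l (Or.inr hl) a).mp ha).1

lemma Y_diff_infinite (hc : ∀ l : I, (Iio l).Countable) (f : I → Bool) {l m : I} (hlm : l < m) :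
    (Y f m \ Y f l).Infinite := by
  obtain ⟨n0, hn0⟩ := (sys_good hc m).cover l hlm
  have hinj : Function.Injective (fun n : ℕ => ((n0 + n, W f (n0 + n) m) : ℕ × List Bool)) := by
    intro a b hab
    simp only [Prod.mk.injEq] at hab
    omega
  refine (Set.infinite_range_of_injective hinj).mono ?_
  rintro _ ⟨n, rfl⟩
  have hl : l ∈ sys m (n0 + n) := (sys_good hc m).mono (Nat.le_add_right _ _) hn0
  refine ⟨⟨m, Or.inl rfl, rfl⟩, ?_⟩
  rintro ⟨a, ha, hw⟩
  simp only at ha hw
  have ha' : a ∈ insert m (sys m (n0 + n)) := by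
    right
    rcases ha with rfl | ha
    · exact hl
    · exact ((insert_coh hc m _ l (Or.inr hl) a).mp ha).1
  have := W_inj hc (Or.inl rfl) ha' hw
  subst this
  rcases ha with h | ha
  · exact absurd hlm (by rw [h]; exact lt_irrefl _)
  · exact absurd (lt_trans hlm ((sys_good hc l).sub _ ha)) (lt_irrefl _)

/-- intersections above the first difference -/
lemma Y_inter_sub (hc : ∀ l : I, (Iio l).Countable) {f g : I → Bool} {d l : I} (hdl : d < l)
    (hd : f d ≠ g d) : ((Y f l ∩ Y g l) \ Y f d).Finite := by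
  obtain ⟨n0, hn0⟩ := (sys_good hc l).cover d hdl
  refine (Y_low_finite hc f l n0).subset ?_
  rintro ⟨n, w⟩ ⟨⟨⟨a, ha, hw⟩, ⟨b, hb, hw'⟩⟩, hnot⟩
  refine ⟨⟨a, ha, hw⟩, ?_⟩
  by_contra hge
  push Not at hge
  simp only at ha hb hw hw' hge
  have hdn : d ∈ sys l n := (sys_good hc l).mono hge hn0
  have hab : a = b := W_inj hc ha hb (by rw [← hw, ← hw'])
  subst hab
  have hval := W_eq_values hc (by rw [← hw, ← hw'] : W f n a = W g n a)
  apply hnot
  rcases lt_trichotomy d a with hda | rfl | had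
  · exfalso
    exact hd (hval d ((insert_coh hc l n a ha d).mpr ⟨hdn, hda⟩))
  · exact ⟨d, Or.inl rfl, hw⟩
  · refine ⟨a, Or.inr ?_, hw⟩
    simp only
    rw [insert_coh hc l n d (Or.inr hdn)]
    refine ⟨?_, had⟩
    rcases ha with rfl | ha
    · exact absurd (lt_trans had hdl) (lt_irrefl _)
    · exact ha

lemma Y_congr (hc : ∀ l : I, (Iio l).Countable) {f g : I → Bool} {l : I}
    (h : ∀ x < l, f x = g x) : Y f l = Y g l := by
  ext ⟨n, w⟩
  constructor
  · rintro ⟨a, ha, hw⟩
    refine ⟨a, ha, ?_⟩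
    rw [hw]
    apply W_congr hc
    intro x hx
    apply h
    rcases ha with rfl | ha
    · exact hx
    · exact lt_trans hx ((sys_good hc l).sub n ha)
  · rintro ⟨a, ha, hw⟩
    refine ⟨a, ha, ?_⟩
    rw [hw]
    apply W_congr hc
    intro x hx
    symm
    apply h
    rcases ha with rfl | ha
    · exact hx
    · exact lt_trans hx ((sys_good hc l).sub n ha)

end Pool.Agent.Work.MP_bcfe2b_lc
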