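import Mathlib
import Pool.Agent.Work.MP_bcfe2b_lc.Topo
import Pool.Agent.Work.MP_bcfe2b_lc.Tree

set_option autoImplicit false

namespace Pool.Agent.Work.MP_bcfe2b_lc

open Set Filter

section tree

variable {I : Type} [LinearOrder I] [WellFoundedLT I]

/-- transport of `Y f l` to subsets of `ℕ` -/
noncomputable def yy (f : I → Bool) (l : I) : Set ℕ :=
  (Encodable.encode : ℕ × List Bool → ℕ) '' Y f l

/-- the open set of a branch -/
def UU (f : I → Bool) : Set NStar := ⋃ l : I, N (yy f l)

/-- its regularization -/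
def VV (f : I → Bool) : Set NStar := interior (closure (UU f))

lemma enc_inj : Function.Injective (Encodable.encode : ℕ × List Bool → ℕ) :=
  Encodable.encode_injective

lemma isOpen_UU (f : I → Bool) : IsOpen (UU f) := isOpen_iUnion fun _ => isOpen_N _

lemma UU_sub_VV (f : I → Bool) : UU f ⊆ VV f :=
  interior_maximal subset_closure (isOpen_UU f)

lemma yy_sub (hc : ∀ l : I, (Iio l).Countable) (f : I → Bool) {l m : I} (hlm : l < m) :
    N (yy f l) ⊆ N (yy f m) := by
  rw [N_subset_iff]
  unfold yy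
  rw [← Set.image_sdiff enc_inj]
  exact (Y_sub hc f hlm).image _

lemma yy_not_sub (hc : ∀ l : I, (Iio l).Countable) (f : I → Bool) {l m : I} (hlm : l < m) :
    ¬ N (yy f m) ⊆ N (yy f l) := by
  rw [N_subset_iff]
  unfold yy
  rw [← Set.image_sdiff enc_inj]
  intro h
  exact Y_diff_infinite hc f hlm (Set.Finite.of_finite_image h enc_inj.injOn)

lemma yy_inter_sub (hc : ∀ l : I, (Iio l).Countable) {f g : I → Bool} {d l : I} (hdl : d < l)
    (hd : f d ≠ g d) : N (yy f l) ∩ N (yy g l) ⊆ N (yy f d) := by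
  rw [← N_inter, N_subset_iff]
  unfold yy
  rw [← Set.image_inter enc_inj, ← Set.image_sdiff enc_inj]
  exact (Y_inter_sub hc hdl hd).image _

lemma UU_inter (hc : ∀ l : I, (Iio l).Countable) {f g : I → Bool} {d : I}
    (hd : f d ≠ g d) (hd' : ∀ x < d, f x = g x) : UU f ∩ UU g = N (yy f d) := by
  have hcongr : ∀ l ≤ d, yy f l = yy g l := by
    intro l hl
    unfold yy
    rw [Y_congr hc (fun x hx => hd' x (lt_of_lt_of_le hx hl))]
  apply Set.Subset.antisymm
  · rintro p ⟨hp1, hp2⟩
    unfold UU at hp1 hp2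
    rw [mem_iUnion] at hp1 hp2
    obtain ⟨l, hl⟩ := hp1
    obtain ⟨m, hm⟩ := hp2
    have key : ∃ k, p ∈ N (yy f k) ∧ p ∈ N (yy g k) := by
      rcases lt_trichotomy l m with h | h | h
      · exact ⟨m, yy_sub hc f h hl, hm⟩
      · subst h; exact ⟨l, hl, hm⟩
      · exact ⟨l, hl, yy_sub hc g h hm⟩
    obtain ⟨k, hk1, hk2⟩ := key
    rcases lt_trichotomy d k with h | h | h
    · exact yy_inter_sub hc h hd ⟨hk1, hk2⟩
    · subst h; exact hk1
    · exact yy_sub hc f h hk1
  · intro p hp
    refine ⟨mem_iUnion.mpr ⟨d, hp⟩, mem_iUnion.mpr ⟨d, ?_⟩⟩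
    rw [← hcongr d le_rfl]
    exact hp

lemma exists_first_diff {f g : I → Bool} (h : f ≠ g) :
    ∃ d, f d ≠ g d ∧ ∀ x < d, f x = g x := by
  have hne : {x | f x ≠ g x}.Nonempty := by
    by_contra hcon
    rw [Set.not_nonempty_iff_eq_empty] at hcon
    apply h
    funext x
    by_contra hx
    have : x ∈ {x | f x ≠ g x} := hx
    rw [hcon] at this
    exact this
  refine ⟨wellFounded_lt.min _ hne, wellFounded_lt.min_mem _ hne, ?_⟩
  intro x hx
  by_contra hxx
  exact wellFounded_lt.not_lt_min {x | f x ≠ g x} hxx hx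

lemma VV_inter (hc : ∀ l : I, (Iio l).Countable) {f g : I → Bool} {d : I}
    (hd : f d ≠ g d) (hd' : ∀ x < d, f x = g x) : VV f ∩ VV g = N (yy f d) := by
  unfold VV
  rw [← interior_closure_inter' (isOpen_UU f) (isOpen_UU g), UU_inter hc hd hd',
    interior_closure_N]

lemma VV_injective (hc : ∀ l : I, (Iio l).Countable) (hmax : ∀ l : I, ∃ m, l < m) :
    Function.Injective (VV : (I → Bool) → Set NStar) := by
  intro f g hfg
  by_contra hne
  obtain ⟨d, hd, hd'⟩ := exists_first_diff hne
  have h1 := VV_inter hc hd hd'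
  rw [← hfg, Set.inter_self] at h1
  obtain ⟨m, hm⟩ := hmax d
  apply yy_not_sub hc f hm
  rw [← h1]
  exact (Set.subset_iUnion (fun l => N (yy f l)) m).trans (UU_sub_VV f)

end tree

section cellular

/-- the set of the first `k` values of `x`, tagged with `j` -/
noncomputable def aset (x : ℕ → Bool) (j : ℕ) : Set ℕ :=
  (Encodable.encode : ℕ × List Bool → ℕ) '' range (fun k : ℕ => (j, (List.range k).map x))

/-- the open set of a real -/
noncomputable def UA (x : ℕ → Bool) : Set NStar := ⋃ j : ℕ, N (aset x j)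

lemma isOpen_UA (x : ℕ → Bool) : IsOpen (UA x) := isOpen_iUnion fun _ => isOpen_N _

lemma aset_infinite (x : ℕ → Bool) (j : ℕ) : (aset x j).Infinite := by
  unfold aset
  apply Set.Infinite.image enc_inj.injOn
  apply Set.infinite_range_of_injective
  intro a b hab
  simp only [Prod.mk.injEq, true_and] at hab
  have := congrArg List.length hab
  simpa using this

lemma UA_disjoint {x x' : ℕ → Bool} (h : x ≠ x') : UA x ∩ UA x' = ∅ := by
  unfold UA
  rw [Set.eq_empty_iff_forall_notMem]
  rintro p ⟨hp1, hp2⟩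
  rw [mem_iUnion] at hp1 hp2
  obtain ⟨i, hi⟩ := hp1
  obtain ⟨j, hj⟩ := hp2
  have hp : p ∈ N (aset x i ∩ aset x' j) := by rw [N_inter]; exact ⟨hi, hj⟩
  obtain ⟨m, hm⟩ : ∃ m, x m ≠ x' m := by
    by_contra hcon
    push Not at hcon
    exact h (funext hcon)
  have hfin : (aset x i ∩ aset x' j).Finite := by
    refine ((Set.finite_Iic m).image (fun k => Encodable.encode ((i, (List.range k).map x) : ℕ × List Bool))).subset ?_
    rintro z ⟨⟨_, ⟨k, rfl⟩, rfl⟩, ⟨_, ⟨k', rfl⟩, hk'⟩⟩
    refine ⟨k, ?_, rfl⟩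
    by_contra hkm
    simp only [mem_Iic, not_le] at hkm
    have heq := enc_inj hk'
    simp only [Prod.mk.injEq] at heq
    have hlen := congrArg List.length heq.2
    simp only [List.length_map, List.length_range] at hlen
    subst hlen
    have h2 := List.map_inj_left.mp heq.2 m (List.mem_range.mpr hkm)
    exact hm h2.symm
  have hsub : N (aset x i ∩ aset x' j) ⊆ N ∅ := by
    rw [N_subset_iff]
    simpa using hfin
  have := hsub hp
  rw [N_empty] at this
  exact this

lemma UA_not_compact (x : ℕ → Bool) : ¬ IsCompact (interior (closure (UA x))) := by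
  intro hcomp
  obtain ⟨z, hz⟩ := eq_N_of_isCompact isOpen_interior hcomp
  have hsub : ∀ j, N (aset x j) ⊆ N z := by
    intro j
    rw [← hz]
    exact (Set.subset_iUnion (fun j => N (aset x j)) j).trans
      (interior_maximal subset_closure (isOpen_UA x))
  -- pick a point of each `aset x j` in `z`
  have hpick : ∀ j, ∃ k : ℕ, Encodable.encode ((j, (List.range k).map x) : ℕ × List Bool) ∈ z := by
    intro j
    have hfin := N_subset_iff.mp (hsub j)
    by_contra hcon
    push Not at hcon
    apply aset_infinite x j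
    refine hfin.subset ?_
    rintro w ⟨_, ⟨k, rfl⟩, rfl⟩
    exact ⟨⟨_, ⟨k, rfl⟩, rfl⟩, hcon k⟩
  choose k hk using hpick
  set D : Set ℕ := range (fun j => Encodable.encode ((j, (List.range (k j)).map x) : ℕ × List Bool)) with hD
  have hDinf : D.Infinite := by
    apply Set.infinite_range_of_injective
    intro a b hab
    have := enc_inj hab
    simp only [Prod.mk.injEq] at this
    exact this.1
  have hDz : N D ⊆ N z := by
    rw [N_subset_iff]
    have : D \ z = ∅ := by
      rw [Set.sdiff_eq_empty]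
      rintro _ ⟨j, rfl⟩
      exact hk j
    rw [this]
    exact Set.finite_empty
  have hDU : N D ∩ UA x = ∅ := by
    rw [Set.eq_empty_iff_forall_notMem]
    rintro p ⟨hp1, hp2⟩
    unfold UA at hp2
    rw [mem_iUnion] at hp2
    obtain ⟨j, hj⟩ := hp2
    have hp : p ∈ N (D ∩ aset x j) := by rw [N_inter]; exact ⟨hp1, hj⟩
    have hfin : (D ∩ aset x j).Finite := by
      refine (Set.finite_singleton (Encodable.encode ((j, (List.range (k j)).map x) : ℕ × List Bool))).subset ?_
      rintro w ⟨⟨j', rfl⟩, ⟨_, ⟨k', rfl⟩, hk'⟩⟩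
      have := enc_inj hk'
      simp only [Prod.mk.injEq] at this
      obtain ⟨rfl, _⟩ := this
      rfl
    have hsub' : N (D ∩ aset x j) ⊆ N ∅ := by
      rw [N_subset_iff]
      simpa using hfin
    have := hsub' hp
    rw [N_empty] at this
    exact this
  obtain ⟨p, hp⟩ := N_nonempty hDinf
  have hpz : p ∈ interior (closure (UA x)) := by rw [hz]; exact hDz hp
  obtain ⟨q, hq1, hq2⟩ := mem_closure_iff.mp (interior_subset hpz) (N D) (isOpen_N D) hp
  have : q ∈ N D ∩ UA x := ⟨hq1, hq2⟩
  rw [hDU] at this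
  exact this

end cellular

end Pool.Agent.Work.MP_bcfe2b_lc
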